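import Pool.Agent.Lib.MP_a31e1e_gt.H24.Final

/-!
# MP_a31e1e_gt : there is a tight algebraic surface in `E^3` with odd Euler characteristic

The definitions used in the statement are in `Pool/Agent/Lib/MP_a31e1e_gt/Statement.lean`.
-/

open scoped ContDiff Manifold
open Pool.Agent.Tight

/-- There are a closed connected smooth surface `M` of Euler characteristic `-3` and a tight
smooth immersion of `M` into `E^3` whose image is a union of connected components of the zero
set of a nonzero polynomial. -/
theorem Pool.Agent.Results.MP_a31e1e_gt.OddTightAlgebraic.result :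
    ∃ (M : Type) (_ : TopologicalSpace M) (_ : ChartedSpace E2 M) (f : M → E3),
      T2Space M ∧ CompactSpace M ∧ ConnectedSpace M ∧ IsManifold (𝓡 2) ∞ M ∧
      HasEulerChar M (-3) ∧ IsSmoothMap E2 f ∧ HasInjectiveDeriv E2 f ∧
      TPP f ∧ AlgebraicImage f :=
  main
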